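import Pool.Agent.Helper37.RG3.Goals

/-!
# Packet PTM: a concrete Petersen graph gives a Petersen model
-/

namespace Pool.Agent.Helper22.RG3

open Finset Pool.Agent.Helper37.RG3

/-- The code of a 2-subset of `Fin 5`: index and layer (outer / inner cycle). -/
def code (s : Finset (Fin 5)) : Fin 5 × Bool :=
  if s = {0, 1} then (0, true) else
  if s = {2, 3} then (1, true) else
  if s = {0, 4} then (2, true) else
  if s = {1, 2} then (3, true) else
  if s = {3, 4} then (4, true) else
  if s = {2, 4} then (0, false) else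
  if s = {1, 4} then (1, false) else
  if s = {1, 3} then (2, false) else
  if s = {0, 3} then (3, false) else (4, false)

theorem code_inj : ∀ s ∈ (univ : Finset (Fin 5)).powersetCard 2,
    ∀ t ∈ (univ : Finset (Fin 5)).powersetCard 2, code s = code t → s = t := by
  decide +kernel

/-- The adjacencies of the ten codes. -/
def adj (p q : Fin 5 × Bool) : Prop :=
  (p.2 = true ∧ q.2 = true ∧ (q.1 = p.1 + 1 ∨ p.1 = q.1 + 1)) ∨
  (p.2 = false ∧ q.2 = false ∧ (q.1 = p.1 + 2 ∨ p.1 = q.1 + 2)) ∨
  (p.2 ≠ q.2 ∧ p.1 = q.1)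

instance : DecidableRel adj := fun p q => by unfold adj; infer_instance

theorem code_adj : ∀ s ∈ (univ : Finset (Fin 5)).powersetCard 2,
    ∀ t ∈ (univ : Finset (Fin 5)).powersetCard 2, Disjoint s t → adj (code s) (code t) := by
  decide +kernel

theorem ptm : PTM := by
  intro V _ _ U R x y hR hx hy hxy hU h1 h2 h3
  let g : Fin 5 × Bool → V := fun p => if p.2 = true then x p.1 else y p.1
  have hgt : ∀ i, g (i, true) = x i := fun i => by simp [g]
  have hgf : ∀ i, g (i, false) = y i := fun i => by simp [g]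
  have hginj : ∀ p q, g p = g q → p = q := by
    rintro ⟨i, b⟩ ⟨j, c⟩ h
    cases b <;> cases c
    · rw [hgf, hgf] at h; rw [hy h]
    · rw [hgf, hgt] at h; exact absurd h.symm (hxy j i)
    · rw [hgt, hgf] at h; exact absurd h (hxy i j)
    · rw [hgt, hgt] at h; rw [hx h]
  have hgU : ∀ p, g p ∈ U := by
    rintro ⟨i, b⟩
    cases b
    · rw [hgf]; exact (hU i).2
    · rw [hgt]; exact (hU i).1
  have hgadj : ∀ p q, adj p q → R (g p) (g q) := by
    rintro ⟨i, b⟩ ⟨j, c⟩ h
    unfold adj at h
    rcases h with ⟨hb, hc, h⟩ | ⟨hb, hc, h⟩ | ⟨hbc, h⟩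
    · simp only at hb hc h
      subst hb hc
      rw [hgt, hgt]
      rcases h with h | h
      · subst h; exact h1 i
      · subst h; exact hR _ _ (h1 j)
    · simp only at hb hc h
      subst hb hc
      rw [hgf, hgf]
      rcases h with h | h
      · subst h; exact h2 i
      · subst h; exact hR _ _ (h2 j)
    · simp only at hbc h
      subst h
      cases b <;> cases c
      · exact absurd rfl hbc
      · rw [hgf, hgt]; exact hR _ _ (h3 i)
      · rw [hgt, hgf]; exact h3 i
      · exact absurd rfl hbc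
  have hmem : ∀ s : {s : Finset (Fin 5) // s.card = 2},
      s.1 ∈ (univ : Finset (Fin 5)).powersetCard 2 := fun s =>
    Finset.mem_powersetCard.2 ⟨Finset.subset_univ _, s.2⟩
  refine ⟨fun s => {g (code s.1)}, fun s => ⟨Con.single R _, ?_⟩, fun s t hst => ?_,
    fun s t hst => ?_⟩
  · intro v hv
    rw [Finset.mem_singleton] at hv
    rw [hv]; exact hgU _
  · rw [Finset.disjoint_singleton]
    intro h
    exact hst (Subtype.ext (code_inj _ (hmem s) _ (hmem t) (hginj _ _ h)))
  · exact ⟨_, Finset.mem_singleton_self _, _, Finset.mem_singleton_self _,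
      hgadj _ _ (code_adj _ (hmem s) _ (hmem t) hst)⟩

end Pool.Agent.Helper22.RG3
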